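import Mathlib

/-!
# Varieties, free algebras, logical kernels and isotypic algebras
-/

set_option autoImplicit false

open FirstOrder FirstOrder.Language

namespace Pool.Agent.H87.Isotypic

/-- The algebra `M` satisfies all identities in `E`; an identity is a pair of terms whose
variables are indexed by `ℕ`. The variety defined by `E` is the class of all such algebras. -/
def Satisfies (L : FirstOrder.Language.{0, 0}) (E : Set (L.Term ℕ × L.Term ℕ)) (M : Type)
    [L.Structure M] : Prop :=
  ∀ e ∈ E, ∀ v : ℕ → M, e.1.realize v = e.2.realize v

/-- `H` is the free algebra, in the variety defined by `E`, on the family `g` of `n` generators: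
`H` lies in the variety and every map from the generators to an algebra of the variety extends
to exactly one homomorphism. -/
def IsFreeOn (L : FirstOrder.Language.{0, 0}) (E : Set (L.Term ℕ × L.Term ℕ)) (H : Type) [L.Structure H]
    {n : ℕ} (g : Fin n → H) : Prop :=
  Satisfies L E H ∧
    ∀ (M : Type) [L.Structure M], Satisfies L E M →
      ∀ f : Fin n → M, ∃! φ : H →[L] M, ∀ i, φ (g i) = f i

/-- The logical kernel of a point `μ` of `H`: all first-order formulas that hold at `μ`. -/
def LKer (L : FirstOrder.Language.{0, 0}) {H : Type} [L.Structure H] {n : ℕ} (μ : Fin n → H) :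
    Set (L.Formula (Fin n)) :=
  {φ | φ.Realize μ}

/-- `H₁` and `H₂` are isotypic: they realise the same complete types of finite tuples. -/
def Isotypic (L : FirstOrder.Language.{0, 0}) (H₁ H₂ : Type) [L.Structure H₁] [L.Structure H₂] : Prop :=
  ∀ n : ℕ, Set.range (fun μ : Fin n → H₁ => LKer L μ) = Set.range (fun μ : Fin n → H₂ => LKer L μ)

end Pool.Agent.H87.Isotypic
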