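import Mathlib
import Pool.Agent.H87.Isotypic.Defs

/-!
# Equal-type points of a free algebra that are not conjugate

The variety has four unary operations `p, q, r, s` and the four identities
`p (q x) = x`, `p (r x) = p x`, `r (s x) = x`, `s (r x) = x`.
In its free algebra on one generator `x` the points `x` and `p x` have the same complete type,
although no automorphism takes `x` to `p x`.
-/

set_option autoImplicit false

open FirstOrder FirstOrder.Language

namespace Pool.Agent.H87.Isotypic

/-! ## The signature and the free algebra -/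

/-- Four unary operation symbols. -/
inductive Fn : ℕ → Type
  | p : Fn 1
  | q : Fn 1
  | r : Fn 1
  | s : Fn 1

/-- The signature with the four unary operation symbols `p, q, r, s`. -/
abbrev Lan : FirstOrder.Language.{0, 0} := ⟨Fn, fun _ => Empty⟩

instance : Lan.IsAlgebraic := fun _ => (inferInstance : IsEmpty Empty)

/-- The carrier of the free algebra: `(k, [t₀, …, tₙ], l)` is the normal form
`r^k q r^{t₀} q … q r^{tₙ} p^l x`. -/
abbrev W : Type := ℤ × List ℤ × ℕ

def opP : W → W
  | (_, [], l) => (0, [], l + 1)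
  | (_, k :: t, l) => (k, t, l)

def opQ (w : W) : W := (0, w.1 :: w.2.1, w.2.2)

def opR (w : W) : W := (w.1 + 1, w.2)

def opS (w : W) : W := (w.1 - 1, w.2)

/-- `R k` is the `k`-th power of `opR`. -/
def R (k : ℤ) (w : W) : W := (w.1 + k, w.2)

def act {n : ℕ} (f : Fn n) : W → W :=
  match f with
  | .p => opP
  | .q => opQ
  | .r => opR
  | .s => opS

def fm {M : Type} (P Q Rr S : M → M) : {n : ℕ} → Fn n → (Fin n → M) → M
  | _, .p, v => P (v 0)
  | _, .q, v => Q (v 0)
  | _, .r, v => Rr (v 0)
  | _, .s, v => S (v 0)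

instance : Lan.Structure W where
  funMap := fun {_} f v => fm opP opQ opR opS f v
  RelMap := fun {_} r _ => r.elim

/-- words in the operations, outermost letter first -/
def ev (u : List (Fn 1)) (w : W) : W := u.foldr (fun f z => act f z) w

@[simp] lemma ev_nil (w : W) : ev [] w = w := rfl
@[simp] lemma ev_cons (f : Fn 1) (u : List (Fn 1)) (w : W) : ev (f :: u) w = act f (ev u w) := rfl
lemma ev_append (u v : List (Fn 1)) (w : W) : ev (u ++ v) w = ev u (ev v w) := by
  induction u with
  | nil => rfl
  | cons f u ih => simp [ih]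

lemma funMap_act (f : Fn 1) (v : Fin 1 → W) :
    Structure.funMap (L := Lan) (M := W) f v = act f (v 0) := by
  cases f <;> rfl

lemma term_word {β : Type} (t : Lan.Term β) :
    ∃ (u : List (Fn 1)) (b : β), ∀ v : β → W, t.realize v = ev u (v b) := by
  induction t with
  | var b => exact ⟨[], b, fun v => rfl⟩
  | func f ts ih =>
    rename_i l
    have key : ∀ {l : ℕ} (f : Fn l) (ts : Fin l → Lan.Term β)
        (ih : ∀ i, ∃ (u : List (Fn 1)) (b : β), ∀ v : β → W, (ts i).realize v = ev u (v b)),
        ∃ (u : List (Fn 1)) (b : β), ∀ v : β → W,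
          Term.realize v (Term.func (L := Lan) f ts) = ev u (v b) := by
      intro l f ts ih
      cases f with
      | p =>
        obtain ⟨u, b, h⟩ := ih 0
        refine ⟨Fn.p :: u, b, fun v => ?_⟩
        rw [Term.realize_func, funMap_act, h v]; rfl
      | q =>
        obtain ⟨u, b, h⟩ := ih 0
        refine ⟨Fn.q :: u, b, fun v => ?_⟩
        rw [Term.realize_func, funMap_act, h v]; rfl
      | r =>
        obtain ⟨u, b, h⟩ := ih 0
        refine ⟨Fn.r :: u, b, fun v => ?_⟩
        rw [Term.realize_func, funMap_act, h v]; rfl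
      | s =>
        obtain ⟨u, b, h⟩ := ih 0
        refine ⟨Fn.s :: u, b, fun v => ?_⟩
        rw [Term.realize_func, funMap_act, h v]; rfl
    exact key f ts ih

/-! ## Basic facts about the operations -/

lemma opP_opQ (w : W) : opP (opQ w) = w := rfl

lemma opP_R (k : ℤ) (w : W) : opP (R k w) = opP w := by
  obtain ⟨a, t, l⟩ := w
  cases t <;> rfl

lemma opR_eq (w : W) : opR w = R 1 w := rfl
lemma opS_eq (w : W) : opS w = R (-1) w := by
  simp [opS, R, sub_eq_add_neg]

lemma R_R (k k' : ℤ) (w : W) : R k (R k' w) = R (k + k') w := by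
  simp only [R]; congr 1; ring

@[simp] lemma R_zero (w : W) : R 0 w = w := by simp [R]

lemma R_inj_left {k k' : ℤ} {w : W} (h : R k w = R k' w) : k = k' := by
  have := congrArg Prod.fst h
  simpa [R] using this

lemma R_eq_iff (k k' : ℤ) (w w' : W) : R k w = R k' w' ↔ w = R (k' - k) w' := by
  constructor
  · intro h
    have := congrArg (R (-k)) h
    rw [R_R, R_R] at this
    simpa [neg_add_eq_sub] using this
  · intro h
    rw [h, R_R]; congr 1; ring

lemma RQ_inj {k k' : ℤ} {w w' : W} (h : R k (opQ w) = R k' (opQ w')) : k = k' ∧ w = w' := by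
  have h2 : w = w' := by
    have := congrArg opP h
    rwa [opP_R, opP_R, opP_opQ, opP_opQ] at this
  subst h2
  exact ⟨R_inj_left h, rfl⟩

/-- the level of an element -/
def lev (w : W) : ℤ := (w.2.2 : ℤ) - (w.2.1.length : ℤ)

lemma lev_R (k : ℤ) (w : W) : lev (R k w) = lev w := rfl
lemma lev_Q (w : W) : lev (opQ w) = lev w - 1 := by
  simp [lev, opQ]; ring
lemma lev_P (w : W) : lev (opP w) = lev w + 1 := by
  obtain ⟨a, t, l⟩ := w
  cases t with
  | nil => simp [lev, opP]
  | cons k t => simp [lev, opP]; ring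

lemma lev_iter (n : ℕ) (w : W) : lev (opP^[n] w) = lev w + n := by
  induction n with
  | zero => simp
  | succ n ih =>
    rw [Function.iterate_succ_apply', lev_P, ih]; push_cast; ring

/-- a word without the letter `p` -/
def PF (g : List (Fn 1)) : Prop := Fn.p ∉ g

lemma pf_nil : PF [] := by simp [PF]

lemma pf_cons {f : Fn 1} {g : List (Fn 1)} (h : PF (f :: g)) : PF g := by
  simp only [PF, List.mem_cons, not_or] at h ⊢
  exact h.2

lemma pf_cons_ne {f : Fn 1} {g : List (Fn 1)} (h : PF (f :: g)) : f ≠ Fn.p := by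
  simp only [PF, List.mem_cons, not_or] at h
  exact fun e => h.1 e.symm

lemma lev_pf (g : List (Fn 1)) (hg : PF g) (w : W) : lev (ev g w) ≤ lev w := by
  induction g with
  | nil => simp
  | cons f g ih =>
    have ih' := ih (pf_cons hg)
    cases f with
    | p => exact absurd rfl (pf_cons_ne hg)
    | q => simp only [ev_cons, act, lev_Q]; linarith
    | r => simp only [ev_cons, act, opR_eq, lev_R]; exact ih'
    | s => simp only [ev_cons, act, opS_eq, lev_R]; exact ih'

/-- pushing `p` through a `p`-free word -/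
lemma p_push (g : List (Fn 1)) (hg : PF g) :
    (∃ g' : List (Fn 1), PF g' ∧ g'.length ≤ g.length ∧ ∀ w, opP (ev g w) = ev g' (opP w)) ∨
    (∃ g' : List (Fn 1), PF g' ∧ g'.length ≤ g.length ∧ ∀ w, opP (ev g w) = ev g' w) := by
  induction g with
  | nil => exact Or.inl ⟨[], pf_nil, le_refl _, fun w => rfl⟩
  | cons f g ih =>
    have hg' := pf_cons hg
    cases f with
    | p => exact absurd rfl (pf_cons_ne hg)
    | q =>
      refine Or.inr ⟨g, hg', by simp, fun w => ?_⟩
      rfl
    | r =>
      rcases ih hg' with ⟨g', h1, h2, h3⟩ | ⟨g', h1, h2, h3⟩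
      · refine Or.inl ⟨g', h1, by simp; omega, fun w => ?_⟩
        rw [← h3 w]; simp only [ev_cons, act, opR_eq, opP_R]
      · refine Or.inr ⟨g', h1, by simp; omega, fun w => ?_⟩
        rw [← h3 w]; simp only [ev_cons, act, opR_eq, opP_R]
    | s =>
      rcases ih hg' with ⟨g', h1, h2, h3⟩ | ⟨g', h1, h2, h3⟩
      · refine Or.inl ⟨g', h1, by simp; omega, fun w => ?_⟩
        rw [← h3 w]; simp only [ev_cons, act, opS_eq, opP_R]
      · refine Or.inr ⟨g', h1, by simp; omega, fun w => ?_⟩
        rw [← h3 w]; simp only [ev_cons, act, opS_eq, opP_R]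

/-- every word is `g p^l` with `g` free of `p` -/
lemma nf (u : List (Fn 1)) : ∃ (g : List (Fn 1)) (l : ℕ), PF g ∧ g.length + l ≤ u.length ∧
    ∀ w, ev u w = ev g (opP^[l] w) := by
  induction u with
  | nil => exact ⟨[], 0, pf_nil, by simp, fun w => rfl⟩
  | cons f u ih =>
    obtain ⟨g, l, h1, h2, h3⟩ := ih
    cases f with
    | p =>
      rcases p_push g h1 with ⟨g', k1, k2, k3⟩ | ⟨g', k1, k2, k3⟩
      · refine ⟨g', l + 1, k1, by simp; omega, fun w => ?_⟩
        simp only [ev_cons, act, h3, k3, Function.iterate_succ_apply']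
      · refine ⟨g', l, k1, by simp; omega, fun w => ?_⟩
        simp only [ev_cons, act, h3, k3]
    | q =>
      refine ⟨Fn.q :: g, l, by simpa [PF] using h1, by simp; omega, fun w => ?_⟩
      simp [h3]
    | r =>
      refine ⟨Fn.r :: g, l, by simpa [PF] using h1, by simp; omega, fun w => ?_⟩
      simp [h3]
    | s =>
      refine ⟨Fn.s :: g, l, by simpa [PF] using h1, by simp; omega, fun w => ?_⟩
      simp [h3]

/-- `p`-free words have left inverses -/
lemma linv (g : List (Fn 1)) (hg : PF g) :
    ∃ g' : List (Fn 1), g'.length ≤ g.length ∧ ∀ w, ev g' (ev g w) = w := by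
  induction g with
  | nil => exact ⟨[], le_refl _, fun w => rfl⟩
  | cons f g ih =>
    obtain ⟨g', h1, h2⟩ := ih (pf_cons hg)
    cases f with
    | p => exact absurd rfl (pf_cons_ne hg)
    | q =>
      refine ⟨g' ++ [Fn.p], by simp; omega, fun w => ?_⟩
      rw [ev_append]; simp only [ev_cons, ev_nil, act, opP_opQ]; exact h2 w
    | r =>
      refine ⟨g' ++ [Fn.s], by simp; omega, fun w => ?_⟩
      rw [ev_append]
      simp only [ev_cons, ev_nil, act, opR_eq, opS_eq, R_R]
      simpa using h2 w
    | s =>
      refine ⟨g' ++ [Fn.r], by simp; omega, fun w => ?_⟩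
      rw [ev_append]
      simp only [ev_cons, ev_nil, act, opR_eq, opS_eq, R_R]
      simpa using h2 w

/-- the shape of a `p`-free word -/
lemma shape (g : List (Fn 1)) (hg : PF g) :
    (∃ k : ℤ, k.natAbs ≤ g.length ∧ ∀ w, ev g w = R k w) ∨
    (∃ (k : ℤ) (g₁ : List (Fn 1)), PF g₁ ∧ k.natAbs + 1 + g₁.length ≤ g.length ∧
      ∀ w, ev g w = R k (opQ (ev g₁ w))) := by
  induction g with
  | nil => exact Or.inl ⟨0, by simp, fun w => by simp⟩
  | cons f g ih =>
    have hg' := pf_cons hg
    cases f with
    | p => exact absurd rfl (pf_cons_ne hg)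
    | q =>
      refine Or.inr ⟨0, g, hg', by simp; omega, fun w => ?_⟩
      simp [act]
    | r =>
      rcases ih hg' with ⟨k, h1, h2⟩ | ⟨k, g₁, h0, h1, h2⟩
      · refine Or.inl ⟨1 + k, by simp only [List.length_cons]; omega, fun w => ?_⟩
        simp only [ev_cons, act, h2, opR_eq, R_R]
      · refine Or.inr ⟨1 + k, g₁, h0, by simp only [List.length_cons]; omega, fun w => ?_⟩
        simp only [ev_cons, act, h2, opR_eq, R_R]
    | s =>
      rcases ih hg' with ⟨k, h1, h2⟩ | ⟨k, g₁, h0, h1, h2⟩
      · refine Or.inl ⟨-1 + k, by simp only [List.length_cons]; omega, fun w => ?_⟩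
        simp only [ev_cons, act, h2, opS_eq, R_R]
      · refine Or.inr ⟨-1 + k, g₁, h0, by simp only [List.length_cons]; omega, fun w => ?_⟩
        simp only [ev_cons, act, h2, opS_eq, R_R]

/-- Peeling: comparing two ancestors of the new element. -/
lemma peel (N m : ℕ) (c d : W)
    (hD : ∀ l, l + 1 < m → ∀ k : ℤ, k.natAbs ≤ 2 * N →
      (opP^[l] c = R k (opQ (opP^[l + 1] c)) ↔ opP^[l] d = R k (opQ (opP^[l + 1] d)))) :
    ∀ (n : ℕ) (g h : List (Fn 1)), PF g → PF h → g.length + h.length ≤ n →
      g.length ≤ N → h.length ≤ N → ∀ l l', l ≤ l' → l' < m →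
      (ev g (opP^[l] c) = ev h (opP^[l'] c) ↔ ev g (opP^[l] d) = ev h (opP^[l'] d)) := by
  intro n
  induction n using Nat.strong_induction_on with
  | _ n ih =>
    intro g h hg hh hn hgN hhN l l' hll hl'm
    rcases shape g hg with ⟨k, hk, hgk⟩ | ⟨k, g₁, hg₁, hk, hgk⟩ <;>
    rcases shape h hh with ⟨k', hk', hhk⟩ | ⟨k', h₁, hh₁, hk', hhk⟩
    · -- both are powers of `r`
      rw [hgk, hhk, hgk, hhk]
      rcases Nat.lt_or_ge l l' with hlt | hge
      · constructor
        · intro e
          have := congrArg lev e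
          rw [lev_R, lev_R, lev_iter, lev_iter] at this
          omega
        · intro e
          have := congrArg lev e
          rw [lev_R, lev_R, lev_iter, lev_iter] at this
          omega
      · have : l = l' := le_antisymm hll hge
        subst this
        constructor
        · intro e; rw [R_inj_left e]
        · intro e; rw [R_inj_left e]
    · -- `g = r^k`, `h = r^k' q h₁`
      rw [hgk, hhk, hgk, hhk]
      rcases Nat.lt_or_ge l l' with hlt | hge
      · have key : ∀ z : W, (R k (opP^[l] z) = R k' (opQ (ev h₁ (opP^[l'] z))) ↔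
            (opP^[l] z = R (k' - k) (opQ (opP^[l + 1] z)) ∧
              ev [] (opP^[l + 1] z) = ev h₁ (opP^[l'] z))) := by
          intro z
          rw [R_eq_iff]
          constructor
          · intro e
            have e2 : opP^[l + 1] z = ev h₁ (opP^[l'] z) := by
              rw [Function.iterate_succ_apply', e, opP_R, opP_opQ]
            refine ⟨?_, e2⟩
            rw [e2]; exact e
          · rintro ⟨e1, e2⟩
            rw [ev_nil] at e2
            rw [← e2]; exact e1
        rw [key c, key d]
        have i1 := hD l (by omega) (k' - k) (by omega)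
        have i2 := ih (0 + h₁.length) (by omega) [] h₁ pf_nil hh₁ (by simp) (by simp)
          (by omega) (l + 1) l' (by omega) hl'm
        rw [i1, i2]
      · have : l = l' := le_antisymm hll hge
        subst this
        constructor
        · intro e
          have h1 := congrArg lev e
          rw [lev_R, lev_R, lev_Q] at h1
          have := lev_pf h₁ hh₁ (opP^[l] c)
          omega
        · intro e
          have h1 := congrArg lev e
          rw [lev_R, lev_R, lev_Q] at h1
          have := lev_pf h₁ hh₁ (opP^[l] d)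
          omega
    · -- `g = r^k q g₁`, `h = r^k'`
      rw [hgk, hhk, hgk, hhk]
      constructor
      · intro e
        have h1 := congrArg lev e
        rw [lev_R, lev_R, lev_Q, lev_iter] at h1
        have := lev_pf g₁ hg₁ (opP^[l] c)
        rw [lev_iter] at this
        omega
      · intro e
        have h1 := congrArg lev e
        rw [lev_R, lev_R, lev_Q, lev_iter] at h1
        have := lev_pf g₁ hg₁ (opP^[l] d)
        rw [lev_iter] at this
        omega
    · -- both contain `q`
      rw [hgk, hhk, hgk, hhk]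
      have i2 := ih (g₁.length + h₁.length) (by omega) g₁ h₁ hg₁ hh₁ le_rfl
        (by omega) (by omega) l l' hll hl'm
      constructor
      · intro e
        obtain ⟨e1, e2⟩ := RQ_inj e
        rw [e1, i2.1 e2]
      · intro e
        obtain ⟨e1, e2⟩ := RQ_inj e
        rw [e1, i2.2 e2]

/-- Building the answer downwards from a prescribed ancestor. -/
lemma build (K : ℕ) (ks : ℤ) (hks : K < ks.natAbs) (M : ℕ) :
    ∀ (c e : W), ∃ d : W, opP^[M] d = e ∧ ∀ j, j < M → ∀ k : ℤ, k.natAbs ≤ K →
      (opP^[j] c = R k (opQ (opP^[j + 1] c)) ↔ opP^[j] d = R k (opQ (opP^[j + 1] d))) := by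
  induction M with
  | zero => intro c e; exact ⟨e, rfl, fun j hj => absurd hj (Nat.not_lt_zero _)⟩
  | succ M ih =>
    intro c e
    obtain ⟨d', h1, h2⟩ := ih (opP c) e
    by_cases hc : ∃ k : ℤ, k.natAbs ≤ K ∧ c = R k (opQ (opP c))
    · obtain ⟨k₀, hk₀, hc⟩ := hc
      have hPd : opP (R k₀ (opQ d')) = d' := by rw [opP_R, opP_opQ]
      refine ⟨R k₀ (opQ d'), ?_, ?_⟩
      · rw [Function.iterate_succ_apply, hPd, h1]
      · intro j hj k hk
        cases j with
        | zero =>
          simp only [Function.iterate_zero, id, zero_add, Function.iterate_one]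
          rw [hPd]
          constructor
          · intro e1
            rw [hc] at e1
            rw [opP_R, opP_opQ] at e1
            rw [(RQ_inj e1).1]
          · intro e1
            rw [← (RQ_inj e1).1]; exact hc
        | succ j =>
          have := h2 j (by omega) k hk
          simp only [Function.iterate_succ_apply] at this ⊢
          rw [hPd]
          exact this
    · have hPd : opP (R ks (opQ d')) = d' := by rw [opP_R, opP_opQ]
      refine ⟨R ks (opQ d'), ?_, ?_⟩
      · rw [Function.iterate_succ_apply, hPd, h1]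
      · intro j hj k hk
        cases j with
        | zero =>
          simp only [Function.iterate_zero, id, zero_add, Function.iterate_one]
          rw [hPd]
          constructor
          · intro e1
            exact absurd ⟨k, hk, e1⟩ hc
          · intro e1
            have := (RQ_inj e1).1
            rw [this] at hks
            omega
        | succ j =>
          have := h2 j (by omega) k hk
          simp only [Function.iterate_succ_apply] at this ⊢
          rw [hPd]
          exact this

/-! ## The game -/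

/-- `a` and `b` satisfy the same equations between words of length at most `N`. -/
def Sim {ι : Type} (N : ℕ) (a b : ι → W) : Prop :=
  ∀ (i j : ι) (u v : List (Fn 1)), u.length ≤ N → v.length ≤ N →
    (ev u (a i) = ev v (a j) ↔ ev u (b i) = ev v (b j))

lemma Sim.mono {ι : Type} {N N' : ℕ} {a b : ι → W} (h : Sim N' a b) (hN : N ≤ N') : Sim N a b :=
  fun i j u v hu hv => h i j u v (hu.trans hN) (hv.trans hN)

lemma Sim.symm {ι : Type} {N : ℕ} {a b : ι → W} (h : Sim N a b) : Sim N b a :=
  fun i j u v hu hv => (h i j u v hu hv).symm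

lemma Sim.comp {ι κ : Type} {N : ℕ} {a b : ι → W} (h : Sim N a b) (f : κ → ι) :
    Sim N (a ∘ f) (b ∘ f) :=
  fun i j u v hu hv => h (f i) (f j) u v hu hv

lemma ev_replicate_p (n : ℕ) (w : W) : ev (List.replicate n Fn.p) w = opP^[n] w := by
  induction n with
  | zero => rfl
  | succ n ih => rw [List.replicate_succ, ev_cons, ih, Function.iterate_succ_apply']; rfl

/-- radii -/
def Rad (N j : ℕ) : ℕ := (N + 2 - j) * (2 * N)

lemma rad_ge (N j : ℕ) (hj : j ≤ N) : 2 * N ≤ Rad N j := by
  unfold Rad
  calc 2 * N = 1 * (2 * N) := by ring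
    _ ≤ (N + 2 - j) * (2 * N) := Nat.mul_le_mul_right _ (by omega)

lemma rad_step (N l m : ℕ) (h : l < m) (hm : m ≤ N) : 2 * N + Rad N m ≤ Rad N l := by
  unfold Rad
  calc 2 * N + (N + 2 - m) * (2 * N) = ((N + 2 - m) + 1) * (2 * N) := by ring
    _ ≤ (N + 2 - l) * (2 * N) := Nat.mul_le_mul_right _ (by omega)

lemma rad_zero (N j : ℕ) : Rad N j ≤ Rad N 0 := by
  unfold Rad
  exact Nat.mul_le_mul_right _ (by omega)

lemma words_finite (n : ℕ) : {u : List (Fn 1) | u.length ≤ n}.Finite := by
  have : Finite (Fn 1) := by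
    refine Finite.of_surjective (fun i : Fin 4 => (![Fn.p, Fn.q, Fn.r, Fn.s] i)) ?_
    intro f
    cases f
    · exact ⟨0, rfl⟩
    · exact ⟨1, rfl⟩
    · exact ⟨2, rfl⟩
    · exact ⟨3, rfl⟩
  exact List.finite_length_le (Fn 1) n

/-- The extension property. -/
lemma extend (N : ℕ) {ι : Type} [Finite ι] (a b : ι → W) (hab : Sim (N + Rad N 0) a b) (c : W) :
    ∃ d : W, Sim N (fun o : Option ι => o.elim c a) (fun o : Option ι => o.elim d b) := by
  classical
  -- choose `m`
  obtain ⟨m, hmN, hA, hC⟩ : ∃ m : ℕ, m ≤ N + 1 ∧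
      (∀ l, l < m → ∀ (u : List (Fn 1)) (i : ι), l ≤ N → u.length ≤ Rad N l →
        opP^[l] c ≠ ev u (a i)) ∧
      (m ≤ N → ∃ (t : List (Fn 1)) (i : ι), t.length ≤ Rad N m ∧ opP^[m] c = ev t (a i)) := by
    by_cases hex : ∃ m, m ≤ N ∧
        ∃ (t : List (Fn 1)) (i : ι), t.length ≤ Rad N m ∧ opP^[m] c = ev t (a i)
    · refine ⟨Nat.find hex, by have := (Nat.find_spec hex).1; omega, ?_, ?_⟩
      · intro l hl u i hlN hu he
        exact Nat.find_min hex hl ⟨hlN, u, i, hu, he⟩
      · intro _
        exact (Nat.find_spec hex).2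
    · refine ⟨N + 1, le_rfl, ?_, ?_⟩
      · intro l _ u i hlN hu he
        exact hex ⟨l, hlN, u, i, hu, he⟩
      · intro h; omega
  -- a bound for first coordinates of near elements
  obtain ⟨ks, hks1, hks2⟩ : ∃ ks : ℤ, (2 * N : ℕ) < ks.natAbs ∧
      ∀ (u : List (Fn 1)) (i : ι), u.length ≤ Rad N 0 + 3 * N → ∀ z, ev u (b i) ≠ R ks (opQ z) := by
    have hfin : (Set.image2 (fun (u : List (Fn 1)) (i : ι) => (ev u (b i)).1)
        {u : List (Fn 1) | u.length ≤ Rad N 0 + 3 * N} Set.univ).Finite :=
      Set.Finite.image2 _ (words_finite _) Set.finite_univ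
    obtain ⟨B, hB⟩ := hfin.bddAbove
    refine ⟨max B (2 * N) + 1, ?_, ?_⟩
    · have : (2 * N : ℤ) < max B (2 * N) + 1 := by
        have := le_max_right B (2 * (N : ℤ))
        omega
      omega
    · intro u i hu z he
      have h1 : (ev u (b i)).1 ≤ B := hB ⟨u, hu, i, Set.mem_univ _, rfl⟩
      rw [he] at h1
      simp only [R, opQ, zero_add] at h1
      have := le_max_left B (2 * (N : ℤ))
      omega
  -- choose `d`
  obtain ⟨d, hB, hC', hD⟩ : ∃ d : W,
      (∀ l, l < m → l ≤ N → ∀ (u : List (Fn 1)) (i : ι), u.length ≤ Rad N 0 + 2 * N →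
        opP^[l] d ≠ ev u (b i)) ∧
      (m ≤ N → ∃ (t : List (Fn 1)) (i : ι), t.length ≤ Rad N m ∧ opP^[m] c = ev t (a i) ∧
        opP^[m] d = ev t (b i)) ∧
      (∀ l, l + 1 < m → ∀ k : ℤ, k.natAbs ≤ 2 * N →
        (opP^[l] c = R k (opQ (opP^[l + 1] c)) ↔ opP^[l] d = R k (opQ (opP^[l + 1] d)))) := by
    -- the image of the ancestor
    obtain ⟨e, he⟩ : ∃ e : W, m ≤ N → ∃ (t : List (Fn 1)) (i : ι), t.length ≤ Rad N m ∧
        opP^[m] c = ev t (a i) ∧ e = ev t (b i) := by
      by_cases hm : m ≤ N
      · obtain ⟨t, i, h1, h2⟩ := hC hm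
        exact ⟨ev t (b i), fun _ => ⟨t, i, h1, h2, rfl⟩⟩
      · exact ⟨c, fun h => absurd h hm⟩
    cases m with
    | zero =>
      refine ⟨e, fun l hl => absurd hl (Nat.not_lt_zero _), ?_,
        fun l hl => absurd hl (Nat.not_lt_zero _)⟩
      intro h
      obtain ⟨t, i, h1, h2, h3⟩ := he h
      exact ⟨t, i, h1, h2, h3⟩
    | succ M =>
      obtain ⟨d, hd1, hd2⟩ := build (2 * N) ks hks1 M c (R ks (opQ e))
      refine ⟨d, ?_, ?_, ?_⟩
      · intro l hl hlN u i hu heq
        have h1 : opP^[M] d = ev (List.replicate (M - l) Fn.p ++ u) (b i) := by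
          rw [ev_append, ev_replicate_p, ← heq, ← Function.iterate_add_apply]
          congr 2; omega
        rw [hd1] at h1
        refine hks2 _ i ?_ e h1.symm
        simp only [List.length_append, List.length_replicate]
        omega
      · intro h
        obtain ⟨t, i, h1, h2, h3⟩ := he h
        refine ⟨t, i, h1, h2, ?_⟩
        rw [Function.iterate_succ_apply', hd1, opP_R, opP_opQ, h3]
      · intro l hl k hk
        exact hd2 l (by omega) k hk
  -- comparison of the new element with the old ones
  have hold : ∀ (u v : List (Fn 1)) (j : ι), u.length ≤ N → v.length ≤ N →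
      (ev u c = ev v (a j) ↔ ev u d = ev v (b j)) := by
    intro u v j hu hv
    obtain ⟨g, l, hg, hgl, hgu⟩ := nf u
    rcases Nat.lt_or_ge l m with hlm | hml
    · obtain ⟨g', hg'1, hg'2⟩ := linv g hg
      constructor
      · intro e
        exfalso
        refine hA l hlm (g' ++ v) j (by omega) ?_ ?_
        · have := rad_ge N l (by omega)
          simp only [List.length_append]; omega
        · rw [ev_append, ← e, hgu, hg'2]
      · intro e
        exfalso
        refine hB l hlm (by omega) (g' ++ v) j ?_ ?_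
        · simp only [List.length_append]; omega
        · rw [ev_append, ← e, hgu, hg'2]
    · obtain ⟨t, i, ht, hc, hd⟩ := hC' (by omega)
      have h1 : ev u c = ev (g ++ (List.replicate (l - m) Fn.p ++ t)) (a i) := by
        rw [ev_append, ev_append, ev_replicate_p, ← hc, ← Function.iterate_add_apply, hgu]
        congr 2; omega
      have h2 : ev u d = ev (g ++ (List.replicate (l - m) Fn.p ++ t)) (b i) := by
        rw [ev_append, ev_append, ev_replicate_p, ← hd, ← Function.iterate_add_apply, hgu]
        congr 2; omega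
      rw [h1, h2]
      refine hab i j _ _ ?_ (by omega)
      have := rad_zero N m
      simp only [List.length_append, List.length_replicate]; omega
  -- comparison of the new element with itself
  have hself' : ∀ (u v g h : List (Fn 1)) (l l' : ℕ), PF g → PF h → g.length + l ≤ N →
      h.length + l' ≤ N → l ≤ l' →
      (ev g (opP^[l] c) = ev h (opP^[l'] c) ↔ ev g (opP^[l] d) = ev h (opP^[l'] d)) := by
    intro u v g h l l' hg hh hgl hhl hll
    rcases Nat.lt_or_ge l' m with hlm' | hml'
    · exact peel N m c d hD _ g h hg hh le_rfl (by omega) (by omega) l l' hll hlm'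
    · obtain ⟨t, i, ht, hc, hd⟩ := hC' (by omega)
      have h1 : ev h (opP^[l'] c) = ev (h ++ (List.replicate (l' - m) Fn.p ++ t)) (a i) := by
        rw [ev_append, ev_append, ev_replicate_p, ← hc, ← Function.iterate_add_apply]
        congr 2; omega
      have h2 : ev h (opP^[l'] d) = ev (h ++ (List.replicate (l' - m) Fn.p ++ t)) (b i) := by
        rw [ev_append, ev_append, ev_replicate_p, ← hd, ← Function.iterate_add_apply]
        congr 2; omega
      rcases Nat.lt_or_ge l m with hlm | hml
      · obtain ⟨g', hg'1, hg'2⟩ := linv g hg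
        constructor
        · intro e
          exfalso
          refine hA l hlm (g' ++ (h ++ (List.replicate (l' - m) Fn.p ++ t))) i (by omega) ?_ ?_
          · have := rad_step N l m hlm (by omega)
            simp only [List.length_append, List.length_replicate]; omega
          · rw [ev_append, ← h1, ← e, hg'2]
        · intro e
          exfalso
          refine hB l hlm (by omega) (g' ++ (h ++ (List.replicate (l' - m) Fn.p ++ t))) i ?_ ?_
          · have := rad_zero N m
            simp only [List.length_append, List.length_replicate]; omega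
          · rw [ev_append, ← h2, ← e, hg'2]
      · have h3 : ev g (opP^[l] c) = ev (g ++ (List.replicate (l - m) Fn.p ++ t)) (a i) := by
          rw [ev_append, ev_append, ev_replicate_p, ← hc, ← Function.iterate_add_apply]
          congr 2; omega
        have h4 : ev g (opP^[l] d) = ev (g ++ (List.replicate (l - m) Fn.p ++ t)) (b i) := by
          rw [ev_append, ev_append, ev_replicate_p, ← hd, ← Function.iterate_add_apply]
          congr 2; omega
        rw [h1, h2, h3, h4]
        have := rad_zero N m
        refine hab i i _ _ ?_ ?_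
        · simp only [List.length_append, List.length_replicate]; omega
        · simp only [List.length_append, List.length_replicate]; omega
  have hself : ∀ (u v : List (Fn 1)), u.length ≤ N → v.length ≤ N →
      (ev u c = ev v c ↔ ev u d = ev v d) := by
    intro u v hu hv
    obtain ⟨g, l, hg, hgl, hgu⟩ := nf u
    obtain ⟨h, l', hh, hhl, hhv⟩ := nf v
    rw [hgu, hhv, hgu, hhv]
    rcases Nat.le_total l l' with hll | hll
    · exact hself' u v g h l l' hg hh (by omega) (by omega) hll
    · have := hself' u v h g l' l hh hg (by omega) (by omega) hll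
      constructor
      · intro e; exact (this.1 e.symm).symm
      · intro e; exact (this.2 e.symm).symm
  refine ⟨d, ?_⟩
  intro i j u v hu hv
  cases i with
  | none =>
    cases j with
    | none => exact hself u v hu hv
    | some j => exact hold u v j hu hv
  | some i =>
    cases j with
    | none =>
      have := hold v u i hv hu
      constructor
      · intro e; exact (this.1 e.symm).symm
      · intro e; exact (this.2 e.symm).symm
    | some j => exact hab i j u v (by omega) (by omega)

/-- Tuples satisfying the same short equations satisfy the same formula. -/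
lemma formula_sim {α : Type} [Finite α] {n : ℕ} (φ : Lan.BoundedFormula α n) :
    ∃ N : ℕ, ∀ (v v' : α → W) (xs xs' : Fin n → W),
      Sim N (Sum.elim v xs) (Sum.elim v' xs') → (φ.Realize v xs ↔ φ.Realize v' xs') := by
  induction φ with
  | falsum => exact ⟨0, fun _ _ _ _ _ => Iff.rfl⟩
  | equal t₁ t₂ =>
    obtain ⟨u₁, b₁, h₁⟩ := term_word t₁
    obtain ⟨u₂, b₂, h₂⟩ := term_word t₂
    refine ⟨max u₁.length u₂.length, fun v v' xs xs' h => ?_⟩
    have := h b₁ b₂ u₁ u₂ (le_max_left _ _) (le_max_right _ _)
    simp only [BoundedFormula.Realize, h₁, h₂]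
    exact this
  | rel R ts => exact R.elim
  | imp f₁ f₂ ih₁ ih₂ =>
    obtain ⟨N₁, h₁⟩ := ih₁
    obtain ⟨N₂, h₂⟩ := ih₂
    refine ⟨max N₁ N₂, fun v v' xs xs' h => ?_⟩
    simp only [BoundedFormula.realize_imp]
    rw [h₁ v v' xs xs' (h.mono (le_max_left _ _)), h₂ v v' xs xs' (h.mono (le_max_right _ _))]
  | @all n f ih =>
    obtain ⟨N, hN⟩ := ih
    -- reindexing
    let g : α ⊕ Fin (n + 1) → Option (α ⊕ Fin n) :=
      Sum.elim (fun a => some (Sum.inl a))
        (fun i => Fin.lastCases (motive := fun _ => Option (α ⊕ Fin n)) none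
          (fun j => some (Sum.inr j)) i)
    have hg : ∀ (v : α → W) (xs : Fin n → W) (c : W),
        Sum.elim v (Fin.snoc xs c : Fin (n + 1) → W) =
          (fun o : Option (α ⊕ Fin n) => o.elim c (Sum.elim v xs)) ∘ g := by
      intro v xs c
      funext i
      rcases i with a | i
      · rfl
      · refine Fin.lastCases ?_ (fun j => ?_) i
        · simp [g]
        · simp [g]
    refine ⟨N + Rad N 0, fun v v' xs xs' h => ?_⟩
    simp only [BoundedFormula.realize_all]
    constructor
    · intro H c
      obtain ⟨d, hd⟩ := extend N _ _ h.symm c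
      have h1 := hd.comp g
      rw [← hg, ← hg] at h1
      exact (hN _ _ _ _ h1).2 (H d)
    · intro H c
      obtain ⟨d, hd⟩ := extend N _ _ h c
      have h1 := hd.comp g
      rw [← hg, ← hg] at h1
      exact (hN _ _ _ _ h1).2 (H d)

/-! ## The endomorphism `x ↦ p x` -/

def tau (w : W) : W := (w.1, w.2.1, w.2.2 + 1)

lemma tau_inj : Function.Injective tau := by
  rintro ⟨a, t, l⟩ ⟨a', t', l'⟩ h
  simp only [tau, Prod.mk.injEq, add_left_inj] at h
  simp [h]

lemma tau_act (f : Fn 1) (w : W) : tau (act f w) = act f (tau w) := by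
  obtain ⟨a, t, l⟩ := w
  cases f <;> cases t <;> rfl

lemma tau_ev (u : List (Fn 1)) (w : W) : tau (ev u w) = ev u (tau w) := by
  induction u with
  | nil => rfl
  | cons f u ih => rw [ev_cons, tau_act, ih, ev_cons]

/-- the generator -/
def x₀ : W := (0, [], 0)

lemma sim_x (N : ℕ) (xs xs' : Fin 0 → W) :
    Sim N (Sum.elim (fun _ : Fin 1 => x₀) xs) (Sum.elim (fun _ : Fin 1 => opP x₀) xs') := by
  intro i j u v _ _
  rcases i with i | i
  · rcases j with j | j
    · simp only [Sum.elim_inl]
      have h1 : ev u (opP x₀) = tau (ev u x₀) := by rw [tau_ev]; rfl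
      have h2 : ev v (opP x₀) = tau (ev v x₀) := by rw [tau_ev]; rfl
      rw [h1, h2]
      exact ⟨fun e => by rw [e], fun e => tau_inj e⟩
    · exact j.elim0
  · exact i.elim0

lemma lker_eq : LKer Lan (fun _ : Fin 1 => x₀) = LKer Lan (fun _ : Fin 1 => opP x₀) := by
  ext φ
  obtain ⟨N, hN⟩ := formula_sim φ
  exact hN _ _ _ _ (sim_x N _ _)

/-! ## Freeness -/

/-- the variable `0` as a term -/
def V : Lan.Term ℕ := Term.var 0

def T (f : Fn 1) (t : Lan.Term ℕ) : Lan.Term ℕ := Term.func f (fun _ => t)

/-- The four identities. -/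
def Ids : Set (Lan.Term ℕ × Lan.Term ℕ) :=
  {(T .p (T .q V), V), (T .p (T .r V), T .p V), (T .r (T .s V), V), (T .s (T .r V), V)}

section alg
variable {M : Type} [Lan.Structure M]

def op (M : Type) [Lan.Structure M] (f : Fn 1) (m : M) : M :=
  Structure.funMap (L := Lan) f (fun _ => m)

lemma realize_T (f : Fn 1) (t : Lan.Term ℕ) (v : ℕ → M) :
    (T f t).realize v = op M f (t.realize v) := rfl

lemma sat_iff : Satisfies Lan Ids M ↔
    (∀ m, op M .p (op M .q m) = m) ∧ (∀ m, op M .p (op M .r m) = op M .p m) ∧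
    (∀ m, op M .r (op M .s m) = m) ∧ (∀ m, op M .s (op M .r m) = m) := by
  constructor
  · intro h
    refine ⟨fun m => ?_, fun m => ?_, fun m => ?_, fun m => ?_⟩
    · exact h (T .p (T .q V), V) (by simp [Ids]) (fun _ => m)
    · exact h (T .p (T .r V), T .p V) (by simp [Ids]) (fun _ => m)
    · exact h (T .r (T .s V), V) (by simp [Ids]) (fun _ => m)
    · exact h (T .s (T .r V), V) (by simp [Ids]) (fun _ => m)
  · rintro ⟨h1, h2, h3, h4⟩ e he v
    simp only [Ids, Set.mem_insert_iff, Set.mem_singleton_iff] at he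
    rcases he with rfl | rfl | rfl | rfl
    · exact h1 _
    · exact h2 _
    · exact h3 _
    · exact h4 _

lemma hom_op {M N : Type} [Lan.Structure M] [Lan.Structure N] (φ : M →[Lan] N) (f : Fn 1) (m : M) :
    φ (op M f m) = op N f (φ m) := φ.map_fun' f _

end alg

lemma op_W (f : Fn 1) (w : W) : op W f w = act f w := by
  cases f <;> rfl

lemma satW : Satisfies Lan Ids W := by
  rw [sat_iff]
  simp only [op_W, act]
  refine ⟨fun m => rfl, fun m => ?_, fun m => ?_, fun m => ?_⟩
  · rw [opR_eq, opP_R]
  · rw [opR_eq, opS_eq, R_R]; simp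
  · rw [opR_eq, opS_eq, R_R]; simp

lemma gen_induction (P : W → Prop) (h0 : P x₀) (hop : ∀ (f : Fn 1) w, P w → P (act f w)) :
    ∀ w, P w := by
  have hR : ∀ (k : ℤ) w, P w → P (R k w) := by
    intro k
    induction k using Int.induction_on with
    | zero => intro w hw; simpa using hw
    | succ k ih =>
      intro w hw
      have := hop .r _ (ih w hw)
      simp only [act, opR_eq, R_R] at this
      rwa [add_comm] at this
    | pred k ih =>
      intro w hw
      have := hop .s _ (ih w hw)
      simp only [act, opS_eq, R_R] at this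
      rwa [show (-1 + -(k : ℤ)) = -(k : ℤ) - 1 by ring] at this
  have hl : ∀ l : ℕ, P (0, [], l) := by
    intro l
    induction l with
    | zero => exact h0
    | succ l ih => exact hop .p _ ih
  have ht : ∀ (t : List ℤ) (l : ℕ), P (0, t, l) := by
    intro t
    induction t with
    | nil => exact hl
    | cons k t ih =>
      intro l
      have h1 := hR k _ (ih l)
      have h2 := hop .q _ h1
      simpa [R, act, opQ] using h2
  rintro ⟨k, t, l⟩
  have := hR k _ (ht t l)
  simpa [R] using this

section free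
variable {M : Type} [Lan.Structure M] (hM : Satisfies Lan Ids M)
include hM

lemma ex_rho : ∃ ρ : Equiv.Perm M, (∀ m, ρ m = op M .r m) ∧ (∀ m, ρ.symm m = op M .s m) := by
  obtain ⟨h1, h2, h3, h4⟩ := sat_iff.1 hM
  exact ⟨⟨op M .r, op M .s, h4, h3⟩, fun _ => rfl, fun _ => rfl⟩

lemma free_aux (a : M) : ∃ φ : W →[Lan] M, φ x₀ = a := by
  obtain ⟨h1, h2, h3, h4⟩ := sat_iff.1 hM
  obtain ⟨ρ, hρ, hρs⟩ := ex_rho hM
  let F : List ℤ → ℕ → M := fun t l =>
    t.foldr (fun k z => op M .q ((ρ ^ k) z)) ((op M .p)^[l] a)
  let φ : W → M := fun w => (ρ ^ w.1) (F w.2.1 w.2.2)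
  have hpρ : ∀ (k : ℤ) (m : M), op M .p ((ρ ^ k) m) = op M .p m := by
    intro k
    induction k using Int.induction_on with
    | zero => intro m; simp
    | succ k ih =>
      intro m
      rw [zpow_add_one, Equiv.Perm.mul_apply, ih, hρ, h2]
    | pred k ih =>
      intro m
      rw [zpow_sub_one, Equiv.Perm.mul_apply, ih]
      have : ρ⁻¹ m = op M .s m := hρs m
      rw [this, ← h2, h3]
  have hact : ∀ (f : Fn 1) (w : W), φ (act f w) = op M f (φ w) := by
    intro f w
    obtain ⟨k, t, l⟩ := w
    cases f with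
    | p =>
      cases t with
      | nil =>
        change (ρ ^ (0 : ℤ)) ((op M .p)^[l + 1] a) = op M .p ((ρ ^ k) ((op M .p)^[l] a))
        rw [hpρ, zpow_zero, Function.iterate_succ_apply']; rfl
      | cons k' t =>
        change (ρ ^ k') (F t l) = op M .p ((ρ ^ k) (op M .q ((ρ ^ k') (F t l))))
        rw [hpρ, h1]
    | q =>
      change (ρ ^ (0 : ℤ)) (op M .q ((ρ ^ k) (F t l))) = op M .q ((ρ ^ k) (F t l))
      rw [zpow_zero]; rfl
    | r =>
      change (ρ ^ (k + 1)) (F t l) = op M .r ((ρ ^ k) (F t l))
      rw [← hρ, add_comm, zpow_add, zpow_one, Equiv.Perm.mul_apply]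
    | s =>
      change (ρ ^ (k - 1)) (F t l) = op M .s ((ρ ^ k) (F t l))
      rw [← hρs, sub_eq_add_neg, add_comm, zpow_add, zpow_neg_one, Equiv.Perm.mul_apply]
      rfl
  refine ⟨⟨φ, ?_, ?_⟩, ?_⟩
  · intro n f v
    have key : ∀ {n : ℕ} (f : Fn n) (v : Fin n → W),
        φ (Structure.funMap (L := Lan) (M := W) f v) =
          Structure.funMap (L := Lan) (M := M) f (φ ∘ v) := by
      intro n f v
      cases f with
      | p =>
        rw [funMap_act, hact, op]; congr 1; funext i; rw [Fin.fin_one_eq_zero i]; rfl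
      | q =>
        rw [funMap_act, hact, op]; congr 1; funext i; rw [Fin.fin_one_eq_zero i]; rfl
      | r =>
        rw [funMap_act, hact, op]; congr 1; funext i; rw [Fin.fin_one_eq_zero i]; rfl
      | s =>
        rw [funMap_act, hact, op]; congr 1; funext i; rw [Fin.fin_one_eq_zero i]; rfl
    exact key f v
  · intro n r v
    exact r.elim
  · change (ρ ^ (0 : ℤ)) a = a
    simp

omit hM in
lemma hom_unique (φ ψ : W →[Lan] M) (h : φ x₀ = ψ x₀) (w : W) : φ w = ψ w := by
  refine gen_induction (fun w => φ w = ψ w) h (fun f w hw => ?_) w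
  rw [← op_W, hom_op, hom_op, hw]

end free

lemma freeW : IsFreeOn Lan Ids W (fun _ : Fin 1 => x₀) := by
  refine ⟨satW, fun M _ hM f => ?_⟩
  obtain ⟨φ, hφ⟩ := free_aux hM (f 0)
  refine ⟨φ, fun i => ?_, fun ψ hψ => ?_⟩
  · rw [Fin.fin_one_eq_zero i]; exact hφ
  · ext w
    exact hom_unique ψ φ (by rw [hφ]; exact hψ 0) w

lemma not_conj : ¬ ∃ σ : W ≃[Lan] W, ∀ _ : Fin 1, σ x₀ = opP x₀ := by
  rintro ⟨σ, hσ⟩
  have key : ∀ w, σ w = tau w := by
    intro w
    refine gen_induction (fun w => σ w = tau w) (hσ 0) (fun f w hw => ?_) w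
    have h1 : σ (op W f w) = op W f (σ w) := hom_op σ.toHom f w
    rw [op_W, op_W] at h1
    rw [h1, hw, tau_act]
  obtain ⟨w, hw⟩ := σ.surjective x₀
  rw [key] at hw
  have := congrArg (fun z : W => z.2.2) hw
  simp [tau, x₀] at this

lemma finite_Fn : Finite (Σ n, Lan.Functions n) := by
  refine Finite.of_surjective
    (fun i : Fin 4 => (⟨1, ![Fn.p, Fn.q, Fn.r, Fn.s] i⟩ : Σ n, Lan.Functions n)) ?_
  rintro ⟨n, f⟩
  change Fn n at f
  cases f
  · exact ⟨0, rfl⟩
  · exact ⟨1, rfl⟩
  · exact ⟨2, rfl⟩
  · exact ⟨3, rfl⟩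

end Pool.Agent.H87.Isotypic
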